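import Mathlib

/-!
# The Fourier transform of the equivariant J-function is supported in the dual cone of the GIT chamber

`Data` collects a torus `T` of rank `l` acting on a smooth projective variety `X` and a GIT quotient `Y`.
The shift operators, the Fourier transform and its coefficients are defined by the formulas of the
problem. The only theorem among the fields is the easy half of the theorem of Tolman and Weitsman on the
kernel of the Kirwan map (field `tw`). The cohomology rings are commutative (for odd classes one takes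
the even part of the tensor product with a Grassmann algebra).
-/

set_option autoImplicit false

open scoped TensorProduct

namespace Pool.Agent.Results.MP_dfbe01_ag.SupportInDualCone

/-- `ℂ[λ₁, …, λ_l][z]`, the cohomology ring of the classifying space of `T × S¹`. -/
abbrev Pol (l : ℕ) : Type := Polynomial (MvPolynomial (Fin l) ℂ)

/-- The field of fractions `ℂ(λ, z)`. -/
def Frac (l : ℕ) : Type := FractionRing (Pol l)

set_option warn.classDefReducibility false

/-- The field structure. -/
noncomputable def instField (l : ℕ) : Field (Frac l) := FractionRing.field (Pol l)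

attribute [local instance] instField

/-- The structure of an algebra over the polynomials. -/
noncomputable def instAlg (l : ℕ) : Algebra (Pol l) (Frac l) :=
  (OreLocalization.instAlgebra : Algebra (Pol l) (FractionRing (Pol l)))

/-- The structure of an algebra over `ℂ`. -/
noncomputable def instAlgC (l : ℕ) : Algebra ℂ (Frac l) :=
  (OreLocalization.instAlgebra : Algebra ℂ (FractionRing (Pol l)))

attribute [local instance] instAlg instAlgC

theorem instTower (l : ℕ) : IsScalarTower ℂ (Pol l) (Frac l) :=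
  (inferInstance : IsScalarTower ℂ (Pol l) (FractionRing (Pol l)))

theorem instFrac (l : ℕ) : IsFractionRing (Pol l) (Frac l) :=
  (inferInstance : IsFractionRing (Pol l) (FractionRing (Pol l)))

attribute [irreducible] instField instAlg instAlgC

attribute [instance] instField instAlg instAlgC instTower instFrac

/-- A polynomial as a rational function. -/
noncomputable def rat (l : ℕ) : Pol l →ₐ[ℂ] Frac l := IsScalarTower.toAlgHom ℂ (Pol l) (Frac l)

theorem rat_inj (l : ℕ) : Function.Injective (rat l) := IsFractionRing.injective (Pol l) (Frac l)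

/-- The substitution `λ_i ↦ λ_i + k_i z`, `z ↦ z` of polynomials. -/
noncomputable def subPol {l : ℕ} (k : Fin l → ℤ) : Pol l →ₐ[ℂ] Pol l :=
  Polynomial.eval₂AlgHom
    (MvPolynomial.aeval fun i => (Polynomial.C (MvPolynomial.X i) + (k i : Pol l) * Polynomial.X : Pol l))
    Polynomial.X fun _ => Commute.all _ _

theorem subPol_X {l : ℕ} (k : Fin l → ℤ) : subPol k Polynomial.X = Polynomial.X := by
  simp [subPol]

theorem subPol_CX {l : ℕ} (k : Fin l → ℤ) (i : Fin l) :
    subPol k (Polynomial.C (MvPolynomial.X i)) =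
      Polynomial.C (MvPolynomial.X i) + (k i : Pol l) * Polynomial.X := by
  simp [subPol]

theorem subPol_neg {l : ℕ} (k : Fin l → ℤ) (p : Pol l) : subPol (-k) (subPol k p) = p := by
  have h : (subPol (-k)).comp (subPol k) = AlgHom.id ℂ (Pol l) := by
    apply Polynomial.algHom_ext'
    · apply MvPolynomial.algHom_ext
      intro i
      show subPol (-k) (subPol k (Polynomial.C (MvPolynomial.X i))) = Polynomial.C (MvPolynomial.X i)
      rw [subPol_CX, map_add, map_mul, subPol_CX, subPol_X, map_intCast, Pi.neg_apply, Int.cast_neg]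
      ring
    · show subPol (-k) (subPol k Polynomial.X) = Polynomial.X
      rw [subPol_X, subPol_X]
  exact DFunLike.congr_fun h p

theorem subPol_inj {l : ℕ} (k : Fin l → ℤ) : Function.Injective (subPol k) :=
  Function.LeftInverse.injective (subPol_neg k)

/-- The substitution `λ_i ↦ λ_i + k_i z`, `z ↦ z` of rational functions, `exp (z k ∂_λ)`. -/
noncomputable def sub {l : ℕ} (k : Fin l → ℤ) : Frac l →ₐ[ℂ] Frac l :=
  IsFractionRing.liftAlgHom (g := (rat l).comp (subPol k)) ((rat_inj l).comp (subPol_inj k))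

/-- The polynomial `α + c z`, for a weight `α` and an integer `c`. -/
noncomputable def lin {l : ℕ} (α : Fin l → ℤ) (c : ℤ) : Pol l :=
  Polynomial.C (∑ i, (α i : MvPolynomial (Fin l) ℂ) * MvPolynomial.X i) + (c : Pol l) * Polynomial.X

/-- `∏_{c ≤ 0} x c / ∏_{c ≤ m} x c`. -/
noncomputable def hyp {A : Type} [CommRing A] (x : ℤ → A) (m : ℤ) : A :=
  (∏ c ∈ Finset.Ioc m 0, x c) * Ring.inverse (∏ c ∈ Finset.Ioc 0 m, x c)

/-- A torus `T` of rank `l` acting on a smooth projective variety `X` and a smooth GIT quotient `Y`. -/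
structure Data where
  /-- The rank of the torus; `Hom(S¹, T)` is `Fin l → ℤ`. -/
  l : ℕ
  /-- The group of equivariant curve classes `N₁ᵀ(X)`, with the map to `Hom(S¹, T)`. The kernel of this
  map is `N₁(X)`. -/
  Γ : Type
  [gΓ : AddCommGroup Γ]
  bar : Γ → Fin l → ℤ
  bar_add : ∀ β γ, bar (β + γ) = bar β + bar γ
  /-- The classes of the effective curves of `X`. -/
  NE : Set Γ
  NE_zero : 0 ∈ NE
  NE_add : ∀ d ∈ NE, ∀ e ∈ NE, d + e ∈ NE
  NE_bar : ∀ d ∈ NE, bar d = 0
  /-- The space `N¹_T(X)_ℝ` of equivariant divisor classes, with its pairing with `N₁ᵀ(X)`. -/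
  V : Type
  [gV : AddCommGroup V]
  [mV : Module ℝ V]
  pair : V → Γ → ℝ
  pair_add : ∀ L β γ, pair L (β + γ) = pair L β + pair L γ
  pair_lin : ∀ (s t : ℝ) (L M : V) (γ : Γ), pair (s • L + t • M) γ = s * pair L γ + t * pair M γ
  /-- The GIT chamber of `Y`; its elements are `T`-ample classes. -/
  CY : Set V
  CY_ne : CY.Nonempty
  ample : ∀ L ∈ CY, ∀ d ∈ NE, 0 ≤ pair L d
  /-- The components of the fixed point set and the section classes `σ_F(k)`. -/
  Fix : Type
  sec : Fix → (Fin l → ℤ) → Γ
  sec_add : ∀ F j k, sec F (j + k) = sec F j + sec F k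
  sec_bar : ∀ F k, bar (sec F k) = k
  /-- The cohomology ring of `F` (extended by the Chern roots of the normal bundle). -/
  HF : Fix → Type
  [rHF : ∀ F, CommRing (HF F)]
  [aHF : ∀ F, Algebra ℂ (HF F)]
  /-- The `T`-weights of the normal bundle of `F` and its Chern roots. -/
  N : Fix → Type
  [fN : ∀ F, Fintype (N F)]
  wt : ∀ F, N F → Fin l → ℤ
  wt_ne : ∀ F j, wt F j ≠ 0
  root : ∀ F, N F → HF F
  root_nil : ∀ F j, IsNilpotent (root F j)
  /-- The equivariant cohomology ring of `X`, with the restrictions to the `F`. -/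
  HT : Type
  [rHT : CommRing HT]
  [aHT : Algebra (MvPolynomial (Fin l) ℂ) HT]
  res : ∀ F, HT →+* MvPolynomial (Fin l) (HF F)
  res_alg : ∀ F p, res F (algebraMap _ HT p) = MvPolynomial.map (algebraMap ℂ (HF F)) p
  /-- The cohomology ring of `Y` and the Kirwan map. -/
  HY : Type
  [rHY : CommRing HY]
  kir : HT →+* HY
  kir_nil : ∀ i : Fin l, IsNilpotent (kir (algebraMap (MvPolynomial (Fin l) ℂ) HT (MvPolynomial.X i)))
  /-- Tolman and Weitsman (easy half): for `L` in the chamber, `L · σ_F(k)` is, up to a universal sign, the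
  value at `k` of the weight of `T` on `L` over `F`, that is, of the moment map of `L` on `F`; a class
  which is zero on the `F` on one side of a hyperplane through the level `0` is zero on `Y`. -/
  tw : ∀ L ∈ CY, ∀ (k : Fin l → ℤ) (a : HT), (∀ F, 0 ≤ pair L (sec F k) → res F a = 0) → kir a = 0

attribute [instance] Data.gΓ Data.gV Data.mV Data.rHF Data.aHF Data.fN Data.rHT Data.aHT Data.rHY

namespace Data

variable (D : Data)

/-- The localised cohomology `H^*(F) ⊗ ℂ(λ, z)` of a fixed component. -/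
def LF (F : D.Fix) : Type := D.HF F ⊗[ℂ] Frac D.l

noncomputable instance instLF (F : D.Fix) : CommRing (D.LF F) :=
  (Algebra.TensorProduct.instCommRing : CommRing (D.HF F ⊗[ℂ] Frac D.l))

/-- The inclusion of `H^*(F)`. -/
noncomputable def inL (F : D.Fix) : D.HF F →+* D.LF F :=
  (Algebra.TensorProduct.includeLeft : D.HF F →ₐ[ℂ] D.HF F ⊗[ℂ] Frac D.l).toRingHom

/-- The inclusion of `ℂ(λ, z)`. -/
noncomputable def inR (F : D.Fix) : Frac D.l →+* D.LF F :=
  (Algebra.TensorProduct.includeRight : Frac D.l →ₐ[ℂ] D.HF F ⊗[ℂ] Frac D.l).toRingHom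

/-- The inclusion of `ℂ[λ, z]`. -/
noncomputable def inP (F : D.Fix) (p : Pol D.l) : D.LF F := D.inR F (rat D.l p)

/-- The factor `ρ_{F,α,j} + α + c z`. -/
noncomputable def term (F : D.Fix) (j : D.N F) (c : ℤ) : D.LF F :=
  D.inL F (D.root F j) + D.inP F (lin (D.wt F j) c)

/-- The product `∏_{α,j} ∏_{c ≤ 0} (ρ_{F,α,j} + α + c z) / ∏_{c ≤ -α·β̄} (ρ_{F,α,j} + α + c z)`. -/
noncomputable def factor (F : D.Fix) (b : Fin D.l → ℤ) : D.LF F :=
  ∏ j, hyp (D.term F j) (-∑ i, D.wt F j i * b i)

/-- The substitution `λ_i ↦ λ_i + k_i z` on `H^*(F) ⊗ ℂ(λ, z)`. -/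
noncomputable def subst (F : D.Fix) (k : Fin D.l → ℤ) : D.LF F →+* D.LF F :=
  (Algebra.TensorProduct.map (AlgHom.id ℂ (D.HF F)) (sub k)).toRingHom

/-- A localised class with coefficients in the Novikov ring, by its restrictions to the `F`: the
coefficient of `Q^d` in the restriction of `f` to `F` is `f F d`. -/
abbrev Cls : Type := ∀ F : D.Fix, D.Γ → D.LF F

/-- The shift operator of `β`:
`(Ŝ^β f)_F = Q^{β + σ_F(-β̄)} ∏_{α,j} (…) e^{-z β̄ ∂_λ} f_F`. -/
noncomputable def shift (β : D.Γ) (f : D.Cls) : D.Cls := fun F d =>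
  D.factor F (D.bar β) * D.subst F (-D.bar β) (f F (d - (β + D.sec F (-D.bar β))))

/-- The inclusion of `H^*(F)[λ][z] = H_T^*(F)[z]` in `H^*(F) ⊗ ℂ(λ, z)`. -/
noncomputable def loc (F : D.Fix) : Polynomial (MvPolynomial (Fin D.l) (D.HF F)) →+* D.LF F :=
  Polynomial.eval₂RingHom
    (MvPolynomial.eval₂Hom (D.inL F) fun i => D.inP F (Polynomial.C (MvPolynomial.X i)))
    (D.inP F Polynomial.X)

/-- The restriction to `F` of a class in `H_T^*(X)[z]`. -/
noncomputable def rz (F : D.Fix) (a : Polynomial D.HT) : D.LF F := D.loc F (a.map (D.res F))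

/-- The ring `H^*(Y)[z, z⁻¹]`. -/
def HYz : Type := LaurentPolynomial D.HY

noncomputable instance instHYz : CommRing D.HYz :=
  (AddMonoidAlgebra.commRing : CommRing (AddMonoidAlgebra D.HY ℤ))

/-- The Kirwan map on `H_T^*(X)[z]`. -/
noncomputable def kz : Polynomial D.HT →+* D.HYz := Polynomial.toLaurent.comp (Polynomial.mapRingHom D.kir)

/-- The Kirwan map on `H_T^*(pt)[z] = ℂ[λ, z]`. -/
noncomputable def kp : Pol D.l →+* D.HYz := D.kz.comp (Polynomial.mapRingHom (algebraMap _ D.HT))

/-- `c` is the image under the Kirwan map of the localised class with the restrictions `g F`: for a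
polynomial `p` in `λ, z` whose image in `H^*(Y)[z, z⁻¹]` is invertible and a class `a` in `H_T^*(X)[z]`
one has `p g = a` on every fixed component, and `κ(p) c = κ(a)`. -/
def Kirwan (g : ∀ F : D.Fix, D.LF F) (c : D.HYz) : Prop :=
  ∃ (p : Pol D.l) (a : Polynomial D.HT), IsUnit (D.kp p) ∧ (∀ F, D.inP F p * g F = D.rz F a) ∧
    D.kp p * c = D.kz a

/-- The localised class `g` is regular: it becomes a class in `H_T^*(X)[z]` when it is multiplied by a
power of `z` and a product of factors `w + c z`, `w` a weight, `c` an integer, `c ≠ 0`. -/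
def Regular (g : ∀ F : D.Fix, D.LF F) : Prop :=
  ∃ (m : ℕ) (s : List ((Fin D.l → ℤ) × ℤ)) (a : Polynomial D.HT), (∀ x ∈ s, x.2 ≠ 0) ∧
    ∀ F, D.inP F (Polynomial.X ^ m * (s.map fun x => lin x.1 x.2).prod) * g F = D.rz F a

/-- The coefficient of `Ŝ^γ` in `∑_{[β]} κ(Ŝ^{-β} J) Ŝ^β`, computed with the lift `β` of `γ̄`: the Kirwan
image of the coefficient of `Q^{γ - β}` in `Ŝ^{-β} J`. -/
def IsCoeff (J : D.Cls) (β γ : D.Γ) (c : D.HYz) : Prop :=
  D.Kirwan (fun F => D.shift (-β) J F (γ - β)) c

theorem bar_neg (β : D.Γ) : D.bar (-β) = -D.bar β := by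
  have h0 : D.bar 0 = 0 := D.NE_bar 0 D.NE_zero
  have h := D.bar_add (-β) β
  rw [neg_add_cancel, h0] at h
  exact eq_neg_of_add_eq_zero_left h.symm

theorem lin_ne {l : ℕ} {α : Fin l → ℤ} (h : α ≠ 0) (c : ℤ) : lin α c ≠ 0 := by
  intro h0
  obtain ⟨i, hi⟩ := Function.ne_iff.1 h
  have h1 := congrArg (fun p : Pol l => MvPolynomial.coeff (Finsupp.single i 1) (p.coeff 0)) h0
  simp only [lin, Polynomial.coeff_add, Polynomial.coeff_C_zero, Polynomial.mul_coeff_zero,
    Polynomial.coeff_X_zero, mul_zero, add_zero, Polynomial.coeff_zero, MvPolynomial.coeff_zero,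
    MvPolynomial.coeff_sum] at h1
  rw [Finset.sum_eq_single i (fun j _ hj => ?_) fun hh => (hh (Finset.mem_univ i)).elim] at h1
  · rw [← map_intCast (MvPolynomial.C : ℂ →+* MvPolynomial (Fin l) ℂ), MvPolynomial.coeff_C_mul,
      MvPolynomial.coeff_X, if_pos rfl, mul_one] at h1
    exact hi (by exact_mod_cast h1)
  · rw [← map_intCast (MvPolynomial.C : ℂ →+* MvPolynomial (Fin l) ℂ), MvPolynomial.coeff_C_mul,
      MvPolynomial.coeff_X, if_neg, mul_zero]
    intro hs
    exact hj ((Finsupp.single_left_inj one_ne_zero).1 hs)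

/-- The factors `ρ_{F,α,j} + α + c z` are invertible. -/
theorem isUnit_term (F : D.Fix) (j : D.N F) (c : ℤ) : IsUnit (D.term F j c) := by
  have hn : IsNilpotent (D.inL F (D.root F j)) := (D.root_nil F j).map (D.inL F)
  have h1 : rat D.l (lin (D.wt F j) c) ≠ 0 := fun h =>
    lin_ne (D.wt_ne F j) c (rat_inj D.l (by rw [h, map_zero]))
  have hu := (isUnit_iff_ne_zero.2 h1).map (D.inR F)
  exact hn.isUnit_add_right_of_commute hu (Commute.all _ _)

theorem smul_mono {l : ℕ} (t : ℂ) (n : ℕ) (m : Fin l →₀ ℕ) :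
    t • rat l (Polynomial.monomial n (MvPolynomial.monomial m 1)) =
      rat l (Polynomial.monomial n (MvPolynomial.monomial m t)) := by
  have h : (Polynomial.monomial n (MvPolynomial.monomial m t) : Pol l) =
      t • Polynomial.monomial n (MvPolynomial.monomial m 1) := by
    rw [Polynomial.smul_monomial, MvPolynomial.smul_monomial, smul_eq_mul, mul_one]
  rw [h, map_smul]

theorem inLR (F : D.Fix) (h : D.HF F) (f : Frac D.l) : D.inL F h * D.inR F f = h ⊗ₜ[ℂ] f := by
  have e := Algebra.TensorProduct.tmul_mul_tmul (R := ℂ) h (1 : D.HF F) (1 : Frac D.l) f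
  rw [mul_one, one_mul] at e
  exact e

theorem loc_monomial (F : D.Fix) (n : ℕ) (m : Fin D.l →₀ ℕ) (h : D.HF F) :
    D.loc F (Polynomial.monomial n (MvPolynomial.monomial m h)) =
      h ⊗ₜ[ℂ] rat D.l (Polynomial.monomial n (MvPolynomial.monomial m 1)) := by
  have e1 : (Polynomial.monomial n (MvPolynomial.monomial m (1 : ℂ)) : Pol D.l) =
      (m.prod fun i e => Polynomial.C (MvPolynomial.X i) ^ e) * Polynomial.X ^ n := by
    rw [← Polynomial.C_mul_X_pow_eq_monomial, MvPolynomial.monomial_eq, MvPolynomial.C_1, one_mul,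
      Finsupp.prod, Finsupp.prod, map_prod]
    simp only [map_pow]
  rw [loc, Polynomial.coe_eval₂RingHom, Polynomial.eval₂_monomial, MvPolynomial.coe_eval₂Hom,
    MvPolynomial.eval₂_monomial, ← D.inLR, e1, map_mul, map_mul, map_pow, map_pow, Finsupp.prod,
    Finsupp.prod, map_prod, map_prod, mul_assoc]
  simp only [map_pow]
  rfl

theorem loc_inj (F : D.Fix) (P : Polynomial (MvPolynomial (Fin D.l) (D.HF F)))
    (hP : D.loc F P = 0) : P = 0 := by
  have key : ∀ φ : D.HF F →ₗ[ℂ] ℂ, ∀ n m, φ (MvPolynomial.coeff m (P.coeff n)) = 0 := by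
    intro φ n₀ m₀
    let Φ : D.HF F ⊗[ℂ] Frac D.l →ₗ[ℂ] Frac D.l :=
      (TensorProduct.lid ℂ (Frac D.l)).toLinearMap ∘ₗ φ.rTensor (Frac D.l)
    let Q : Pol D.l := ∑ n ∈ P.support, ∑ m ∈ (P.coeff n).support,
      Polynomial.monomial n (MvPolynomial.monomial m (φ (MvPolynomial.coeff m (P.coeff n))))
    have h1 : D.loc F P = (∑ n ∈ P.support, ∑ m ∈ (P.coeff n).support,
        (MvPolynomial.coeff m (P.coeff n)) ⊗ₜ rat D.l
          (Polynomial.monomial n (MvPolynomial.monomial m 1)) : D.HF F ⊗[ℂ] Frac D.l) := by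
      conv_lhs => rw [P.as_sum_support]
      rw [map_sum]
      refine Finset.sum_congr rfl fun n _ => ?_
      conv_lhs => rw [← MvPolynomial.support_sum_monomial_coeff (P.coeff n)]
      rw [map_sum, map_sum]
      exact Finset.sum_congr rfl fun m _ => D.loc_monomial F n m _
    have h2 : Φ (D.loc F P) = rat D.l Q := by
      rw [h1, map_sum, map_sum]
      refine Finset.sum_congr rfl fun n _ => ?_
      rw [map_sum, map_sum]
      refine Finset.sum_congr rfl fun m _ => ?_
      exact smul_mono _ n m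
    have h3 : Q = 0 := by
      rw [hP] at h2
      have h2' : Φ 0 = rat D.l Q := h2
      rw [map_zero] at h2'
      exact rat_inj D.l (by rw [← h2', map_zero])
    have h4 : MvPolynomial.coeff m₀ (Q.coeff n₀) = φ (MvPolynomial.coeff m₀ (P.coeff n₀)) := by
      simp only [Q, Polynomial.finsetSum_coeff, Polynomial.coeff_monomial, MvPolynomial.coeff_sum]
      rw [Finset.sum_eq_single n₀ (fun n _ hn => Finset.sum_eq_zero fun m _ => by simp [hn]) fun hn => ?_,
        Finset.sum_eq_single m₀ (fun m _ hm => by simp [hm]) fun hm => ?_]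
      · simp
      · have : MvPolynomial.coeff m₀ (P.coeff n₀) = 0 := by simpa using hm
        simp [this]
      · have : P.coeff n₀ = 0 := by simpa using hn
        simp [this]
    rw [← h4, h3]
    simp
  ext n m
  rw [Polynomial.coeff_zero, MvPolynomial.coeff_zero]
  exact (Module.forall_dual_apply_eq_zero_iff ℂ _).1 fun φ => key φ n m

/-- The polynomial `p` acts on the restrictions by multiplication by `1 ⊗ p`. -/
theorem rz_pt (F : D.Fix) (p : Pol D.l) :
    D.rz F (p.map (algebraMap (MvPolynomial (Fin D.l) ℂ) D.HT)) = D.inP F p := by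
  have h : (D.loc F).comp ((Polynomial.mapRingHom (D.res F)).comp
      (Polynomial.mapRingHom (algebraMap (MvPolynomial (Fin D.l) ℂ) D.HT))) =
      (D.inR F).comp (rat D.l).toRingHom := by
    apply Polynomial.ringHom_ext
    · intro q
      show D.loc F ((Polynomial.C q |>.map _).map _) = D.inR F (rat D.l (Polynomial.C q))
      rw [Polynomial.map_C, Polynomial.map_C, D.res_alg]
      induction q using MvPolynomial.induction_on' with
      | monomial m t =>
        rw [MvPolynomial.map_monomial, ← Polynomial.monomial_zero_left, D.loc_monomial,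
          ← Polynomial.monomial_zero_left, ← smul_mono t, Algebra.algebraMap_eq_smul_one,
          TensorProduct.smul_tmul]
        rfl
      | add q r hq hr => rw [map_add, Polynomial.C_add, map_add, hq, hr, Polynomial.C_add, map_add,
          map_add]
    · show D.loc F ((Polynomial.X.map _).map _) = D.inR F (rat D.l Polynomial.X)
      rw [Polynomial.map_X, Polynomial.map_X, loc, Polynomial.coe_eval₂RingHom, Polynomial.eval₂_X]
      rfl
  exact DFunLike.congr_fun h p

theorem rz_mul (F : D.Fix) (a b : Polynomial D.HT) : D.rz F (a * b) = D.rz F a * D.rz F b := by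
  rw [rz, Polynomial.map_mul, map_mul, rz, rz]

theorem rz_sub (F : D.Fix) (a b : Polynomial D.HT) : D.rz F (a - b) = D.rz F a - D.rz F b := by
  rw [rz, Polynomial.map_sub, map_sub, rz, rz]

/-- The classes which restrict to zero on one side of a hyperplane through the level zero. -/
theorem kir_zero {L : D.V} (hL : L ∈ D.CY) (k : Fin D.l → ℤ) (a : Polynomial D.HT)
    (h : ∀ F, 0 ≤ D.pair L (D.sec F k) → D.rz F a = 0) : D.kz a = 0 := by
  have h0 : a.map D.kir = 0 := by
    ext n
    rw [Polynomial.coeff_map, Polynomial.coeff_zero]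
    refine D.tw L hL k _ fun F hF => ?_
    have := D.loc_inj F _ (h F hF)
    rw [← Polynomial.coeff_map, this, Polynomial.coeff_zero]
  show Polynomial.toLaurent (a.map D.kir) = 0
  rw [h0, map_zero]

theorem kirwan_unique (g : ∀ F : D.Fix, D.LF F) (c c' : D.HYz) (h : D.Kirwan g c)
    (h' : D.Kirwan g c') : c = c' := by
  obtain ⟨p, a, hu, hg, hc⟩ := h
  obtain ⟨p', a', hu', hg', hc'⟩ := h'
  obtain ⟨L, hL⟩ := D.CY_ne
  have h0 : D.kz (p'.map (algebraMap _ D.HT) * a - p.map (algebraMap _ D.HT) * a') = 0 := by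
    refine D.kir_zero hL 0 _ fun F _ => ?_
    rw [D.rz_sub, D.rz_mul, D.rz_mul, D.rz_pt, D.rz_pt, ← hg, ← hg']
    ring
  have e : ∀ q : Pol D.l, D.kz (q.map (algebraMap _ D.HT)) = D.kp q := fun q => rfl
  rw [map_sub, map_mul, map_mul, e, e, ← hc, ← hc'] at h0
  have h2 : D.kp p' * D.kp p * (c - c') = 0 := by
    rw [← h0]; ring
  exact sub_eq_zero.1 (((hu'.mul hu).mul_right_eq_zero).1 h2)

theorem isUnit_lin (w : Fin D.l → ℤ) {c : ℤ} (hc : c ≠ 0) : IsUnit (D.kp (lin w c)) := by
  let f : MvPolynomial (Fin D.l) ℂ →+* D.HY := D.kir.comp (algebraMap _ D.HT)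
  have hn : IsNilpotent (f (∑ i, (w i : MvPolynomial (Fin D.l) ℂ) * MvPolynomial.X i)) := by
    rw [map_sum]
    refine isNilpotent_sum fun i _ => ?_
    rw [map_mul]
    exact (Commute.all _ _).isNilpotent_mul_left (D.kir_nil i)
  have hu : IsUnit ((c : D.HY)) := by
    have h1 : IsUnit ((c : ℂ)) := isUnit_iff_ne_zero.2 (by exact_mod_cast hc)
    have h2 := h1.map (f.comp MvPolynomial.C)
    rwa [map_intCast] at h2
  have e : D.kp (lin w c) =
      (LaurentPolynomial.C (f (∑ i, (w i : MvPolynomial (Fin D.l) ℂ) * MvPolynomial.X i)) +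
        LaurentPolynomial.C (c : D.HY) * LaurentPolynomial.T 1 : LaurentPolynomial D.HY) := by
    show Polynomial.toLaurent (((lin w c).map (algebraMap _ D.HT)).map D.kir) = _
    rw [Polynomial.map_map, lin, Polynomial.map_add, Polynomial.map_C, Polynomial.map_mul,
      Polynomial.map_intCast, Polynomial.map_X, map_add, map_mul, Polynomial.toLaurent_C,
      Polynomial.toLaurent_X, map_intCast, map_intCast]
  rw [e]
  exact (hn.map LaurentPolynomial.C).isUnit_add_right_of_commute
    ((hu.map LaurentPolynomial.C).mul (LaurentPolynomial.isUnit_T 1)) (Commute.all _ _)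

/-- A regular localised class has a Kirwan image. -/
theorem kirwan_exists (g : ∀ F : D.Fix, D.LF F) (h : D.Regular g) : ∃ c, D.Kirwan g c := by
  obtain ⟨m, s, a, hs, hg⟩ := h
  have hu : IsUnit (D.kp (Polynomial.X ^ m * (s.map fun x => lin x.1 x.2).prod)) := by
    rw [map_mul, map_pow]
    have hX : IsUnit (D.kp Polynomial.X) := by
      have e : D.kp Polynomial.X = (LaurentPolynomial.T 1 : LaurentPolynomial D.HY) := by
        show Polynomial.toLaurent ((Polynomial.X.map (algebraMap _ D.HT)).map D.kir) = _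
        rw [Polynomial.map_X, Polynomial.map_X, Polynomial.toLaurent_X]
      rw [e]
      exact LaurentPolynomial.isUnit_T 1
    refine (hX.pow m).mul ?_
    clear hg
    induction s with
    | nil => simp
    | cons x s ih =>
      rw [List.map_cons, List.prod_cons, map_mul]
      exact (D.isUnit_lin x.1 (hs x List.mem_cons_self)).mul
        (ih fun y hy => hs y (List.mem_cons_of_mem x hy))
  obtain ⟨u, hu'⟩ := hu
  refine ⟨↑u⁻¹ * D.kz a, _, a, ⟨u, hu'⟩, hg, ?_⟩
  rw [← hu', Units.mul_inv_cancel_left]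

/-- The coefficients do not depend on the lift `β`. -/
theorem coeff_eq (J : D.Cls) {β γ : D.Γ} (h : D.bar β = D.bar γ) (F : D.Fix) :
    D.shift (-β) J F (γ - β) = D.factor F (-D.bar γ) * D.subst F (D.bar γ)
      (J F (γ - D.sec F (D.bar γ))) := by
  rw [shift, D.bar_neg, neg_neg, h]
  congr 3
  abel

end Data

/-- **Q1.** `J` is any localised class whose exponents are effective (the coefficient of a monomial of `τ`
in the equivariant J-function of `X`). The factors `ρ_{F,α,j} + α + c z` are invertible, so that the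
products are the true quotients; a regular localised class has a unique Kirwan image; the
coefficient of `Ŝ^γ` in the Fourier transform of `J` does not depend on the lift `β` of `γ̄`; if this
coefficient is not zero then, for every `L` in the chamber of `Y`, one has `0 ≤ L · γ`, so `γ` lies in the
dual cone of the chamber, and some fixed component `F` has `γ - σ_F(γ̄)` effective and
`0 ≤ L · σ_F(γ̄)`. -/
theorem result (D : Data) (J : D.Cls) (hJ : ∀ F d, d ∉ D.NE → J F d = 0) :
    (∀ F j c, IsUnit (D.term F j c)) ∧ (∀ g, D.Regular g → ∃! c, D.Kirwan g c) ∧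
    (∀ β β' γ c, D.bar β = D.bar γ → D.bar β' = D.bar γ → D.IsCoeff J β γ c → D.IsCoeff J β' γ c) ∧
    ∀ β γ c, D.bar β = D.bar γ → D.IsCoeff J β γ c → c ≠ 0 → ∀ L ∈ D.CY, 0 ≤ D.pair L γ ∧
      ∃ F, γ - D.sec F (D.bar γ) ∈ D.NE ∧ 0 ≤ D.pair L (D.sec F (D.bar γ)) := by
  refine ⟨D.isUnit_term, fun g hg => ?_, fun β β' γ c h h' hc => ?_, fun β γ c h hc hne L hL => ?_⟩
  · obtain ⟨c, hc⟩ := D.kirwan_exists g hg
    exact ⟨c, hc, fun c' hc' => D.kirwan_unique g c' c hc' hc⟩
  · unfold Data.IsCoeff at hc ⊢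
    simp only [D.coeff_eq J h, D.coeff_eq J h'] at hc ⊢
    exact hc
  · have key : ∃ F, γ - D.sec F (D.bar γ) ∈ D.NE ∧ 0 ≤ D.pair L (D.sec F (D.bar γ)) := by
      by_contra hneg
      push Not at hneg
      obtain ⟨p, a, hu, hg, hc⟩ := hc
      refine hne ?_
      have h0 : D.kz a = 0 := by
        refine D.kir_zero hL (D.bar γ) a fun F hF => ?_
        rw [← hg F]
        show _ * D.shift (-β) J F (γ - β) = 0
        rw [D.coeff_eq J h, hJ F _ fun hd => not_lt.2 hF (hneg F hd), map_zero, mul_zero, mul_zero]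
      rw [h0] at hc
      exact (hu.mul_right_eq_zero).1 hc
    refine ⟨?_, key⟩
    obtain ⟨F, hd, hF⟩ := key
    have h1 := D.ample L hL _ hd
    have h2 := D.pair_add L (γ - D.sec F (D.bar γ)) (D.sec F (D.bar γ))
    rw [sub_add_cancel] at h2
    linarith

end Pool.Agent.Results.MP_dfbe01_ag.SupportInDualCone
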